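import Pool.Agent.K1H53.BI.Plan3
import Pool.Agent.K1H38.BI.Two

/-!
# Branching internal DLA: the space-time harmonic function (piece UU)
-/

set_option autoImplicit false

open scoped ENNReal
open Finset

namespace Pool.Agent.K1H61.BI

open Pool.Agent.K1H53.BI Pool.Agent.K1H38.BI

theorem walk_sq {ν : PMF ℕ} {σ2 M : ℝ} (h : Off ν σ2 M) (j : ℕ) : ∀ b : ℝ,
    Ex (walk ν j) (fun S => ENNReal.ofReal (((S : ℝ) - j + b) ^ 2)) =
      ENNReal.ofReal (b ^ 2 + j * σ2) := by
  obtain ⟨_, _, hpoly⟩ := poly h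
  induction j with
  | zero =>
    intro b
    rw [walk, Ex_pure]
    simp
  | succ j ih =>
    intro b
    rw [walk, Ex_bind]
    have h1 : ∀ k : ℕ, Ex ((walk ν j).bind fun S => PMF.pure (k + S))
        (fun S => ENNReal.ofReal (((S : ℝ) - (j + 1 : ℕ) + b) ^ 2)) =
        ENNReal.ofReal (((k : ℝ) - 1 + b) ^ 2 + j * σ2) := by
      intro k
      rw [Ex_bind, ← ih]
      refine Ex_congr _ fun S _ => ?_
      rw [Ex_pure]
      congr 1
      push_cast
      ring
    rw [Ex_congr ν (fun k _ => h1 k)]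
    rw [Ex_ofReal ν (fun k => ((k : ℝ) - 1 + b) ^ 2 + j * σ2) (fun k => by
      have := h.pos
      positivity) (b ^ 2 + (j + 1 : ℕ) * σ2)]
    have h2 := hpoly (b ^ 2 + j * σ2) (2 * b) 1 0
    convert h2 using 1
    · funext k
      ring
    · push_cast
      ring

theorem t_UU : S_UU := by
  intro ν σ2 M hoff
  refine ⟨fun T a j y hy => ?_, fun T a ε j y ha hε hyT hσ => ?_⟩
  · unfold uu
    rw [walk, Ex_bind]
    refine Ex_congr _ fun k _ => ?_
    rw [Ex_bind]
    refine Ex_congr _ fun S _ => ?_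
    rw [Ex_pure]
    unfold ind
    have e1 : ((y : ℝ) + ((k + S : ℕ) : ℝ) - ((j + 1 : ℕ) : ℝ)) - T =
        (((y - 1 + k : ℕ) : ℝ) + S - j) - T := by
      rw [Nat.cast_add (y - 1) k, Nat.cast_sub hy]
      push_cast
      ring
    simp only [e1]
  · have h1 := walk_sq hoff j 0
    rw [ENNReal.ofReal_sub _ hε.le, ENNReal.ofReal_one, tsub_le_iff_right]
    have h2 : (1 : ℝ≥0∞) ≤ Ex (walk ν j) (fun S =>
        ind (fun S : ℕ => |((y : ℝ) + S - j) - T| ≤ a) S +
          ENNReal.ofReal (4 / a ^ 2) * ENNReal.ofReal (((S : ℝ) - j + 0) ^ 2)) := by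
      rw [← Ex_const (walk ν j) 1]
      refine Ex_mono _ fun S _ => ?_
      by_cases hP : |((y : ℝ) + S - j) - T| ≤ a
      · have : ind (fun S : ℕ => |((y : ℝ) + S - j) - T| ≤ a) S = 1 := by
          unfold ind
          rw [if_pos hP]
        rw [this]
        exact le_self_add
      · have h3 : a / 2 < |(S : ℝ) - j| := by
          by_contra hc
          push Not at hc
          apply hP
          calc |((y : ℝ) + S - j) - T| = |((y : ℝ) - T) + ((S : ℝ) - j)| := by
                congr 1; ring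
            _ ≤ |(y : ℝ) - T| + |(S : ℝ) - j| := abs_add_le _ _
            _ ≤ a := by linarith
        have h4 : (1 : ℝ) ≤ 4 / a ^ 2 * ((S : ℝ) - j + 0) ^ 2 := by
          rw [add_zero, div_mul_eq_mul_div, le_div_iff₀ (by positivity), one_mul]
          have : (a / 2) ^ 2 ≤ |(S : ℝ) - j| ^ 2 := by gcongr
          rw [sq_abs] at this
          linarith
        rw [← ENNReal.ofReal_mul (by positivity)]
        refine le_add_left ?_
        rw [← ENNReal.ofReal_one]
        exact ENNReal.ofReal_le_ofReal h4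
    rw [Ex_add, Ex_const_mul, h1] at h2
    refine h2.trans ?_
    unfold uu
    gcongr
    rw [← ENNReal.ofReal_mul (by positivity)]
    refine ENNReal.ofReal_le_ofReal ?_
    rw [div_mul_eq_mul_div, div_le_iff₀ (by positivity)]
    linarith

end Pool.Agent.K1H61.BI
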